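import Pool.Agent.V7H39.DE.Fin

/-!
# MP_e9eb55_nt: the diagonal Moebius-twisted Elliott-Halberstam conjecture in two half-random models

Each model replaces one of the two functions `Λ`, `μ` by a random one and keeps the other one as it is.
Almost surely the conjectured bounds hold for all large `N`, at every level `N^θ` with `θ < 1`.
-/

set_option autoImplicit false

namespace Pool.Agent.Results.MP_e9eb55_nt.HalfRandomModelsH39

open Finset MeasureTheory ProbabilityTheory Filter

/-- `∑ w(n) g(N - n)` over the integers `1 ≤ n < y` with `n ≡ a (mod q)` -/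
noncomputable def twist (w g : ℕ → ℝ) (q a y N : ℕ) : ℝ :=
  ∑ n ∈ (Ico 1 y).filter (fun n => n ≡ a [MOD q]), w n * g (N - n)

/-- the diagonal discrepancy over the moduli `q ≤ Q` coprime to `N`; for `w = Λ` and `Q = N^θ` this is
`D_g(N; θ)` -/
noncomputable def disc (w g : ℕ → ℝ) (N : ℕ) (Q : ℝ) : ℝ :=
  ∑ q ∈ (Icc 1 ⌊Q⌋₊).filter (fun q => q.Coprime N),
    |twist w g q N N N - 1 / (Nat.totient q : ℝ) * ∑ n ∈ Ico 1 N, w n * g (N - n)|

/-- size at most `C m^η` for every `η > 0` -/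
def SubPower (c : ℕ → ℝ) : Prop :=
  ∀ η : ℝ, 0 < η → ∃ C : ℝ, 0 < C ∧ ∀ m : ℕ, 1 ≤ m → |c m| ≤ C * (m : ℝ) ^ η

/-- Wintner's random Moebius function: multiplicative, supported at the squarefree numbers, with the value
`s p` at the prime `p` -/
noncomputable def wintner (s : ℕ → ℝ) (m : ℕ) : ℝ :=
  if Squarefree m then ∏ p ∈ m.primeFactors, s p else 0

/-- independent symmetric random signs -/
structure RandomSigns {Ω : Type} [MeasurableSpace Ω] (P : Measure Ω) (s : ℕ → Ω → ℝ) : Prop where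
  meas : ∀ p, Measurable (s p)
  sign : ∀ p ω, s p ω = 1 ∨ s p ω = -1
  half : ∀ p, P {ω | s p ω = 1} = 1 / 2
  indep : iIndepFun s P

/-- independent random weights `X n` of size at most `B (1 + log n)` with the mean values `h n`, where `h`
has the period `W ≥ 1` -/
structure CramerWeights {Ω : Type} [MeasurableSpace Ω] (P : Measure Ω) (X : ℕ → Ω → ℝ) (h : ℕ → ℝ) (W : ℕ)
    (B : ℝ) : Prop where
  pos : 1 ≤ W
  period : ∀ n, h (n + W) = h n
  meas : ∀ n, Measurable (X n)
  bound : ∀ n ω, 1 ≤ n → |X n ω| ≤ B * (1 + Real.log n)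
  mean : ∀ n, ∫ ω, X n ω ∂P = h n
  indep : iIndepFun X P

/-- Cramer's random primes, sieved by the primes that divide `W`, for `ω` in the infinite product of unit
intervals: the integers `n` coprime to `W` are chosen independently with probability `κ / L_n`, and a chosen
`n` gets the weight `L_n = max (log n) κ`, where `κ = W / φ(W)` -/
noncomputable def cramer (W n : ℕ) (ω : ℕ → unitInterval) : ℝ :=
  if n.Coprime W ∧ ((ω n : ℝ) < ((W : ℝ) / Nat.totient W) / max (Real.log n) ((W : ℝ) / Nat.totient W)) then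
    max (Real.log n) ((W : ℝ) / Nat.totient W) else 0

/-- random signs on the same space -/
noncomputable def coin (p : ℕ) (ω : ℕ → unitInterval) : ℝ := if (ω p : ℝ) < 1 / 2 then 1 else -1

lemma meas_lt (t : ℝ) : MeasurableSet {x : unitInterval | (x : ℝ) < t} :=
  measurableSet_lt measurable_subtype_coe measurable_const

lemma vol_lt {t : ℝ} (h0 : 0 ≤ t) (h1 : t ≤ 1) :
    (volume : Measure unitInterval) {x : unitInterval | (x : ℝ) < t} = ENNReal.ofReal t := by
  have h2 : {x : unitInterval | (x : ℝ) < t} = Set.Iio (⟨t, h0, h1⟩ : unitInterval) := by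
    ext x
    rw [Set.mem_ofPred_eq, Set.mem_Iio, ← Subtype.coe_lt_coe]
  rw [h2, unitInterval.volume_Iio]

lemma coin_signs : RandomSigns (Measure.infinitePi fun _ : ℕ => (volume : Measure unitInterval)) coin := by
  have hm : Measurable fun x : unitInterval => (if (x : ℝ) < 1 / 2 then (1 : ℝ) else -1) :=
    Measurable.ite (meas_lt _) measurable_const measurable_const
  refine ⟨fun p => ?_, fun p ω => ?_, fun p => ?_, ?_⟩
  · exact hm.comp (measurable_pi_apply p)
  · unfold coin
    split_ifs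
    · exact Or.inl rfl
    · exact Or.inr rfl
  · have h1 : {ω : ℕ → unitInterval | coin p ω = 1} =
        Function.eval p ⁻¹' {x : unitInterval | (x : ℝ) < 1 / 2} := by
      ext ω
      simp only [coin, Set.mem_ofPred_eq, Set.mem_preimage, Function.eval]
      split_ifs with h
      · simp only [h]
      · simp only [h]
        norm_num
    rw [h1, (measurePreserving_eval_infinitePi (fun _ : ℕ => (volume : Measure unitInterval)) p).measure_preimage
      (meas_lt _).nullMeasurableSet, vol_lt (by norm_num) (by norm_num), ENNReal.ofReal_div_of_pos (by norm_num)]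
    simp
  · exact iIndepFun_infinitePi (P := fun _ : ℕ => (volume : Measure unitInterval))
      (X := fun _ (x : unitInterval) => (if (x : ℝ) < 1 / 2 then (1 : ℝ) else -1)) (fun _ => hm)

lemma cramer_weights (W : ℕ) (hW : 1 ≤ W) :
    CramerWeights (Measure.infinitePi fun _ : ℕ => (volume : Measure unitInterval)) (cramer W)
      (fun n => if n.Coprime W then (W : ℝ) / Nat.totient W else 0) W ((W : ℝ) / Nat.totient W) := by
  set κ : ℝ := (W : ℝ) / Nat.totient W with hκ
  have hφ : (0 : ℝ) < Nat.totient W := by exact_mod_cast Nat.totient_pos.2 hW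
  have hκ1 : 1 ≤ κ := by
    rw [hκ, one_le_div hφ]
    exact_mod_cast Nat.totient_le W
  set L : ℕ → ℝ := fun n => max (Real.log n) κ with hL
  have hLκ : ∀ n, κ ≤ L n := fun n => le_max_right _ _
  have hL0 : ∀ n, 0 < L n := fun n => by linarith [hLκ n]
  have hm : ∀ n : ℕ, Measurable fun x : unitInterval => (if n.Coprime W ∧ (x : ℝ) < κ / L n then L n else 0) := by
    intro n
    refine Measurable.ite ?_ measurable_const measurable_const
    by_cases h : n.Coprime W
    · have e : {a : unitInterval | n.Coprime W ∧ (a : ℝ) < κ / L n} = {a : unitInterval | (a : ℝ) < κ / L n} := by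
        ext a
        exact ⟨fun h2 => h2.2, fun h2 => ⟨h, h2⟩⟩
      rw [e]
      exact meas_lt _
    · have e : {a : unitInterval | n.Coprime W ∧ (a : ℝ) < κ / L n} = ∅ := by
        ext a
        exact ⟨fun h2 => absurd h2.1 h, fun h2 => h2.elim⟩
      rw [e]
      exact MeasurableSet.empty
  refine ⟨hW, fun n => ?_, fun n => ?_, fun n ω hn => ?_, fun n => ?_, ?_⟩
  · have h1 : (n + W).Coprime W ↔ n.Coprime W := by
      rw [Nat.coprime_add_self_left]
    simp only [h1]
  · exact (hm n).comp (measurable_pi_apply n)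
  · have h1 : cramer W n ω = if n.Coprime W ∧ ((ω n : ℝ) < κ / L n) then L n else 0 := rfl
    have hl : 0 ≤ Real.log n := Real.log_natCast_nonneg n
    have h2 : L n ≤ κ * (1 + Real.log n) := by
      apply max_le
      · nlinarith
      · nlinarith
    rw [h1]
    split_ifs
    · rw [abs_of_pos (hL0 n)]
      exact h2
    · rw [abs_zero]
      positivity
  · have h1 : ∫ ω, cramer W n ω ∂(Measure.infinitePi fun _ : ℕ => (volume : Measure unitInterval)) =
        ∫ x, (if n.Coprime W ∧ ((x : unitInterval) : ℝ) < κ / L n then L n else 0) ∂(volume : Measure unitInterval) := by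
      conv_rhs => rw [← Measure.infinitePi_map_eval (fun _ : ℕ => (volume : Measure unitInterval)) n]
      rw [integral_map (measurable_pi_apply n).aemeasurable (hm n).aestronglyMeasurable]
      rfl
    rw [h1]
    by_cases h : n.Coprime W
    · have h2 : (fun x : unitInterval => if n.Coprime W ∧ (x : ℝ) < κ / L n then L n else 0) =
          Set.indicator {x : unitInterval | (x : ℝ) < κ / L n} fun _ => L n := by
        ext x
        by_cases hx : (x : ℝ) < κ / L n
        · rw [if_pos ⟨h, hx⟩, Set.indicator_of_mem (show x ∈ {x : unitInterval | (x : ℝ) < κ / L n} from hx)]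
        · rw [if_neg (fun h3 => hx h3.2), Set.indicator_of_notMem (show x ∉ {x : unitInterval | (x : ℝ) < κ / L n} from hx)]
      rw [h2, if_pos h, integral_indicator (meas_lt _), setIntegral_const, smul_eq_mul, measureReal_def,
        vol_lt (div_nonneg (by linarith) (hL0 n).le) ((div_le_one (hL0 n)).2 (hLκ n)),
        ENNReal.toReal_ofReal (div_nonneg (by linarith) (hL0 n).le)]
      exact div_mul_cancel₀ _ (hL0 n).ne'
    · have h2 : (fun x : unitInterval => if n.Coprime W ∧ (x : ℝ) < κ / L n then L n else 0) = fun _ => 0 := by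
        ext x
        rw [if_neg (fun h3 => h h3.1)]
      rw [h2, if_neg h, integral_zero]
  · exact iIndepFun_infinitePi (P := fun _ : ℕ => (volume : Measure unitInterval))
      (X := fun n (x : unitInterval) => (if n.Coprime W ∧ (x : ℝ) < κ / L n then L n else 0)) hm

lemma disc_eq (w g : ℕ → ℝ) (N : ℕ) (Q : ℝ) : disc w g N Q = V7H39.DE.dis w g N Q := by
  unfold disc V7H39.DE.dis
  apply sum_congr rfl
  intro q _
  have h1 : V7H39.DE.tw w g 1 N = ∑ n ∈ Ico 1 N, w n * g (N - n) := by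
    unfold V7H39.DE.tw
    rw [filter_true_of_mem]
    intro n _
    exact Nat.modEq_one
  rw [h1]
  rfl

lemma RandomSigns.signs {Ω : Type} [MeasurableSpace Ω] {P : Measure Ω} {s : ℕ → Ω → ℝ} (h : RandomSigns P s) :
    V7H39.DE.Signs P s := ⟨h.meas, h.sign, h.half, h.indep⟩

lemma CramerWeights.weights {Ω : Type} [MeasurableSpace Ω] {P : Measure Ω} {X : ℕ → Ω → ℝ} {h : ℕ → ℝ} {W : ℕ}
    {B : ℝ} (H : CramerWeights P X h W B) : V7H39.DE.Weights P X h (max B 1) := by
  refine ⟨H.meas, fun n ω hn => (H.bound n ω hn).trans ?_, H.mean, H.indep⟩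
  have hl : 0 ≤ Real.log n := Real.log_natCast_nonneg n
  exact mul_le_mul_of_nonneg_right (le_max_left _ _) (by linarith)

lemma part2 {Ω : Type} [MeasurableSpace Ω] {P : Measure Ω} [IsProbabilityMeasure P] {s : ℕ → Ω → ℝ}
    (h : RandomSigns P s) (w c : ℕ → ℝ) (hw : SubPower w) (hc : SubPower c) : ∀ᵐ ω ∂P,
    ∀ θ ε : ℝ, 0 < θ → θ < 1 → 0 < ε → ∀ᶠ N : ℕ in atTop,
      disc w (fun m => c m * wintner (fun p => s p ω) m) N ((N : ℝ) ^ θ) ≤ (N : ℝ) ^ ((1 + θ) / 2 + ε) ∧
      ∀ a y : ℕ → ℕ, (∀ q, y q ≤ N) → ∑ q ∈ Icc 1 ⌊(N : ℝ) ^ θ⌋₊,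
        |twist w (fun m => c m * wintner (fun p => s p ω) m) q (a q) (y q) N| ≤
          (N : ℝ) ^ ((1 + θ) / 2 + ε) := by
  filter_upwards [V7H39.DE.wintner h.signs w c hw hc] with ω hω θ ε h0 h1 hε
  filter_upwards [hω θ ε h0 h1 hε] with N a1
  rw [disc_eq]
  exact a1

lemma part1 {Ω : Type} [MeasurableSpace Ω] {P : Measure Ω} [IsProbabilityMeasure P] {s : ℕ → Ω → ℝ}
    (h : RandomSigns P s) : ∀ᵐ ω ∂P, ∀ g : ℕ → ℝ,
    (g = fun m => wintner (fun p => s p ω) m) ∨ (g = fun m => wintner (fun p => s p ω) m * Real.log m) →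
    ∀ θ ε : ℝ, 0 < θ → θ < 1 → 0 < ε → ∀ᶠ N : ℕ in atTop,
      disc (fun n => ArithmeticFunction.vonMangoldt n) g N ((N : ℝ) ^ θ) ≤ (N : ℝ) ^ ((1 + θ) / 2 + ε) ∧
      ∀ a y : ℕ → ℕ, (∀ q, y q ≤ N) → ∑ q ∈ Icc 1 ⌊(N : ℝ) ^ θ⌋₊,
        |twist (fun n => ArithmeticFunction.vonMangoldt n) g q (a q) (y q) N| ≤
          (N : ℝ) ^ ((1 + θ) / 2 + ε) := by
  filter_upwards [part2 h _ _ V7H39.DE.slow_vM V7H39.DE.slow_one, part2 h _ _ V7H39.DE.slow_vM V7H39.DE.slow_log]
    with ω h1 h2 g hg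
  rcases hg with rfl | rfl
  · simp only [one_mul] at h1
    exact h1
  · have e : (fun m : ℕ => wintner (fun p => s p ω) m * Real.log m) =
        fun m : ℕ => Real.log m * wintner (fun p => s p ω) m := by
      ext m
      ring
    rw [e]
    exact h2

lemma part3 {Ω : Type} [MeasurableSpace Ω] {P : Measure Ω} [IsProbabilityMeasure P] {X : ℕ → Ω → ℝ} {h : ℕ → ℝ}
    {W : ℕ} {B : ℝ} (H : CramerWeights P X h W B) : ∀ᵐ ω ∂P, ∀ g : ℕ → ℝ,
    (g = fun m => (ArithmeticFunction.moebius m : ℝ)) ∨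
      (g = fun m => (ArithmeticFunction.moebius m : ℝ) * Real.log m) →
    (∀ c A : ℝ, 0 < c → ∀ᶠ N : ℕ in atTop,
      disc (fun n => X n ω) g N (N * Real.exp (-(Real.log N) ^ c)) ≤ N * (Real.log N) ^ (-A)) ∧
    ∀ θ A : ℝ, θ < 1 → ∀ᶠ N : ℕ in atTop,
      disc (fun n => X n ω) g N ((N : ℝ) ^ θ) ≤ N * (Real.log N) ^ (-A) := by
  filter_upwards [V7H39.DE.cramer H.weights (lt_of_lt_of_le one_pos (le_max_right _ _)) H.pos H.period]
    with ω hω g hg
  have h1 := hω g hg
  simp only [disc_eq]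
  refine ⟨h1, fun θ A hθ => ?_⟩
  filter_upwards [h1 (1 / 2) A (by norm_num), V7H39.DE.ev_theta θ hθ] with N a1 a2
  exact (V7H39.DE.dis_mono _ _ _ a2).trans a1

theorem result :
    -- the true primes and Wintner's random Moebius function, without and with the logarithm
    (∀ (Ω : Type) [MeasurableSpace Ω] (P : Measure Ω) [IsProbabilityMeasure P] (s : ℕ → Ω → ℝ),
      RandomSigns P s → ∀ᵐ ω ∂P, ∀ g : ℕ → ℝ,
        (g = fun m => wintner (fun p => s p ω) m) ∨ (g = fun m => wintner (fun p => s p ω) m * Real.log m) →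
        ∀ θ ε : ℝ, 0 < θ → θ < 1 → 0 < ε → ∀ᶠ N : ℕ in atTop,
          disc (fun n => ArithmeticFunction.vonMangoldt n) g N ((N : ℝ) ^ θ) ≤ (N : ℝ) ^ ((1 + θ) / 2 + ε) ∧
          ∀ a y : ℕ → ℕ, (∀ q, y q ≤ N) → ∑ q ∈ Icc 1 ⌊(N : ℝ) ^ θ⌋₊,
            |twist (fun n => ArithmeticFunction.vonMangoldt n) g q (a q) (y q) N| ≤
              (N : ℝ) ^ ((1 + θ) / 2 + ε)) ∧
    -- the same for arbitrary weights and twists
    (∀ (Ω : Type) [MeasurableSpace Ω] (P : Measure Ω) [IsProbabilityMeasure P] (s : ℕ → Ω → ℝ),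
      RandomSigns P s → ∀ w c : ℕ → ℝ, SubPower w → SubPower c → ∀ᵐ ω ∂P,
        ∀ θ ε : ℝ, 0 < θ → θ < 1 → 0 < ε → ∀ᶠ N : ℕ in atTop,
          disc w (fun m => c m * wintner (fun p => s p ω) m) N ((N : ℝ) ^ θ) ≤ (N : ℝ) ^ ((1 + θ) / 2 + ε) ∧
          ∀ a y : ℕ → ℕ, (∀ q, y q ≤ N) → ∑ q ∈ Icc 1 ⌊(N : ℝ) ^ θ⌋₊,
            |twist w (fun m => c m * wintner (fun p => s p ω) m) q (a q) (y q) N| ≤
              (N : ℝ) ^ ((1 + θ) / 2 + ε)) ∧
    -- random primes and the true Moebius function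
    (∀ (Ω : Type) [MeasurableSpace Ω] (P : Measure Ω) [IsProbabilityMeasure P] (X : ℕ → Ω → ℝ) (h : ℕ → ℝ)
      (W : ℕ) (B : ℝ), CramerWeights P X h W B → ∀ᵐ ω ∂P, ∀ g : ℕ → ℝ,
        (g = fun m => (ArithmeticFunction.moebius m : ℝ)) ∨
          (g = fun m => (ArithmeticFunction.moebius m : ℝ) * Real.log m) →
        (∀ c A : ℝ, 0 < c → ∀ᶠ N : ℕ in atTop,
          disc (fun n => X n ω) g N (N * Real.exp (-(Real.log N) ^ c)) ≤ N * (Real.log N) ^ (-A)) ∧
        ∀ θ A : ℝ, θ < 1 → ∀ᶠ N : ℕ in atTop,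
          disc (fun n => X n ω) g N ((N : ℝ) ^ θ) ≤ N * (Real.log N) ^ (-A)) ∧
    -- instances of the two models
    RandomSigns (Measure.infinitePi fun _ : ℕ => (volume : Measure unitInterval)) coin ∧
    ∀ W : ℕ, 1 ≤ W → CramerWeights (Measure.infinitePi fun _ : ℕ => (volume : Measure unitInterval)) (cramer W)
      (fun n => if n.Coprime W then (W : ℝ) / Nat.totient W else 0) W ((W : ℝ) / Nat.totient W) :=
  ⟨fun _ _ _ _ _ h => part1 h, fun _ _ _ _ _ h w c hw hc => part2 h w c hw hc, fun _ _ _ _ _ _ _ _ H => part3 H,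
    coin_signs, cramer_weights⟩

end Pool.Agent.Results.MP_e9eb55_nt.HalfRandomModelsH39
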