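import Pool.Agent.V7H24.TR.Met
import Pool.Agent.Results.MP_e9eb55_nt.AlmostAllN

/-!
# The diagonal Moebius-twisted Elliott-Halberstam bound around almost all members of arbitrary sequences of random variables

Let `X_1, X_2, ...` be ANY random variables, with no independence, which are at least `exp ((log n) ^ κ)` for large `n` and whose laws
have density at most `K (1 + log v) ^ K / v` at the unit scale. Almost surely, for all `n ≤ N` but `N / (log N) ^ U` (every `U`) the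
diagonal bound holds for both weights at ALL integers `m` within distance `(1 + log X_n) ^ W` of `X_n`. The integers near the
`X_n` may form a set as thin as one likes, and many of the `X_n` may be near the same integer. For example
let `b_n` be any sequence of reals at all with `b_n ≥ exp ((log n) ^ κ)` (so any sequence with `b_n ≥ n ^ δ`): for almost
every `x > 0` the bound holds around almost all members of `x b_n` (and of `x b_n + c_n`) and of `b_n ^ x`.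

The earlier theorem `TypicalPoints` of this problem concerns all but finitely many of the `m` of a random set, for random sets which
contain `m` with probability `O ((log m) ^ c / m)`; here the sequences need not grow fast and no such bound holds.
-/

set_option autoImplicit false

namespace Pool.Agent.Results.MP_e9eb55_nt.MetricSequencesH24

open MeasureTheory
open Pool.Agent.Results.MP_e9eb55_nt.AlmostAllN (disc g₁ g₂)
open Pool.Agent.V7H24.TR (Spread Growing)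

/-- the diagonal bound at `n` for the moduli up to `Q` and the saving `(log n) ^ B`, for both weights -/
def Bound (B : ℝ) (n : ℕ) (Q : ℝ) : Prop :=
  ∀ g : ℕ → ℝ, (g = g₁ ∨ g = g₂) → disc g n Q ≤ n * Real.log n ^ (-B)

/-- For all `n ≤ N` but `N / (log N) ^ U` the bound holds at all integers `m` within distance `(1 + log x_n) ^ W` of `x_n`: at all
levels `m ^ θ`, `θ < 1`, and at all levels `m exp (-(log m) ^ c)`, `c > 0`; for all `U`, `W` and all savings `(log m) ^ B`. -/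
def AroundAlmostAll (x : ℕ → ℝ) : Prop :=
  ∀ (B : ℝ), 0 < B → ∀ W U : ℕ,
    (∀ θ : ℝ, 0 < θ → θ < 1 → ∃ N₀ : ℕ, ∀ N : ℕ, N₀ ≤ N →
      ({n : ℕ | 1 ≤ n ∧ n ≤ N ∧ ∃ m : ℕ, |(m : ℝ) - x n| ≤ (1 + Real.log (x n)) ^ W ∧
        ¬ Bound B m ((m : ℝ) ^ θ)}.ncard : ℝ) ≤ N / Real.log N ^ U) ∧
    (∀ c : ℝ, 0 < c → ∃ N₀ : ℕ, ∀ N : ℕ, N₀ ≤ N →
      ({n : ℕ | 1 ≤ n ∧ n ≤ N ∧ ∃ m : ℕ, |(m : ℝ) - x n| ≤ (1 + Real.log (x n)) ^ W ∧
        ¬ Bound B m (m * Real.exp (-(Real.log m) ^ c))}.ncard : ℝ) ≤ N / Real.log N ^ U)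

/-- the two kinds of levels together, with the saving -/
def Index : Type := {p : ℝ × ℝ // 0 < p.1 ∧ 0 < p.2 ∧ p.2 < 1} ⊕ {p : ℝ × ℝ // 0 < p.1 ∧ 0 < p.2}

/-- the property of `m` for the index -/
def Prp : Index → ℕ → Prop
  | Sum.inl p, m => Bound p.1.1 m ((m : ℝ) ^ p.1.2)
  | Sum.inr p, m => Bound p.1.1 m (m * Real.exp (-(Real.log m) ^ p.1.2))

lemma around_of {x : ℕ → ℝ} (h : ∀ j : Index, ∀ W U : ℕ, ∃ N₀ : ℕ, ∀ N : ℕ, N₀ ≤ N →
      ({n : ℕ | 1 ≤ n ∧ n ≤ N ∧ ∃ m : ℕ, |(m : ℝ) - x n| ≤ (1 + Real.log (x n)) ^ W ∧ ¬ Prp j m}.ncard : ℝ) ≤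
        N / Real.log N ^ U) : AroundAlmostAll x :=
  fun B hB W U => ⟨fun θ h0 h1 => h (Sum.inl ⟨(B, θ), hB, h0, h1⟩) W U, fun c hc => h (Sum.inr ⟨(B, c), hB, hc⟩) W U⟩

/-- **Theorem.** (1) Let `X_n` be functions on a measure space `Ω` and `S` a subset; suppose that for `n ≥ n₀` the set of the
`ω ∈ S` with `|X_n(ω) - v| ≤ 1` has measure at most `K (1 + log v) ^ K / v`, `v ≥ 1`, and that
`X_n ≥ exp ((log n) ^ κ)` on `S`. For almost all `ω ∈ S` the bound holds around almost all `X_n(ω)`. (2) The same for functions `f_n`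
on `[a, b]` with `f_n ≥ 1`, `f_n (y) - f_n (x) ≥ (y - x) f_n (x) / (K (1 + log f_n (x)) ^ K)` for `x ≤ y`. (3) Let `b_n`, `c_n` be
any reals with `b_n ≥ exp ((log n) ^ κ)` and `0 ≤ c_n ≤ K b_n (1 + log b_n) ^ K` for large `n`; for almost all `x > 0` the bound
holds around almost all `x b_n + c_n`. (4) For almost all `x > 0` it holds around almost all `b_n ^ x`. -/
theorem result (K n₀ : ℕ) (κ : ℝ) (hκ : 0 < κ) :
    (∀ (Ω : Type) [MeasurableSpace Ω] (μ : Measure Ω) (S : Set Ω) (X : ℕ → Ω → ℝ),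
      (∀ n, n₀ ≤ n → Spread μ S K (X n)) → (∀ n, n₀ ≤ n → ∀ ω ∈ S, Real.exp (Real.log n ^ κ) ≤ X n ω) →
      ∀ᵐ ω ∂μ, ω ∈ S → AroundAlmostAll (fun n => X n ω)) ∧
    (∀ (a b : ℝ) (f : ℕ → ℝ → ℝ), (∀ n, n₀ ≤ n → Growing a b K (f n)) →
      (∀ n, n₀ ≤ n → ∀ x : ℝ, a ≤ x → x ≤ b → Real.exp (Real.log n ^ κ) ≤ f n x) →
      ∀ᵐ x : ℝ, a ≤ x → x ≤ b → AroundAlmostAll (fun n => f n x)) ∧
    (∀ b c : ℕ → ℝ, (∀ n, n₀ ≤ n → Real.exp (Real.log n ^ κ) ≤ b n) →
      (∀ n, n₀ ≤ n → 0 ≤ c n ∧ c n ≤ K * b n * (1 + Real.log (b n)) ^ K) →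
      ∀ᵐ x : ℝ, 0 < x → AroundAlmostAll (fun n => x * b n + c n)) ∧
    (∀ b : ℕ → ℝ, (∀ n, n₀ ≤ n → Real.exp (Real.log n ^ κ) ≤ b n) →
      ∀ᵐ x : ℝ, 0 < x → AroundAlmostAll (fun n => b n ^ x)) := by
  obtain ⟨E, h1, h2, h3⟩ := AlmostAllN.result
  have hE : Pool.Agent.N375.AV.LogThin E := Pool.Agent.N375.AV.logThin_of (fun B => by
    obtain ⟨X₀, hX₀⟩ := h1 B
    refine ⟨X₀, fun X hX => le_trans (le_of_eq ?_) (hX₀ X hX)⟩
    congr!)
  have hP : ∀ j : Index, ∃ n₀ : ℕ, ∀ n : ℕ, n₀ ≤ n → n ∉ E → Prp j n := by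
    rintro (⟨⟨B, θ⟩, hB, h0, h1'⟩ | ⟨⟨B, c⟩, hB, hc⟩)
    · obtain ⟨n₀, hn₀⟩ := h2 θ h0 h1' B hB
      exact ⟨n₀, fun n hn hnE g hg => hn₀ n hn hnE g hg⟩
    · obtain ⟨n₀, hn₀⟩ := h3 c hc B hB
      exact ⟨n₀, fun n hn hnE g hg => hn₀ n hn hnE g hg⟩
  refine ⟨fun Ω _ μ S X hX hlow => ?_, fun a b f hf hlow => ?_, fun b c hb hc => ?_, fun b hb => ?_⟩
  · filter_upwards [Pool.Agent.V7H24.TR.metric_good hE Prp hP μ S K X n₀ hX κ hκ hlow] with ω hω hS
    exact around_of (hω hS)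
  · filter_upwards [Pool.Agent.V7H24.TR.metric_growing hE Prp hP a b K f n₀ hf κ hκ hlow] with x hx ha hb
    exact around_of (hx ha hb)
  · filter_upwards [Pool.Agent.V7H24.TR.metric_affine hE Prp hP b c K κ hκ n₀ hb hc] with x hx h0
    exact around_of (hx h0)
  · filter_upwards [Pool.Agent.V7H24.TR.metric_rpow hE Prp hP b κ hκ n₀ hb] with x hx h0
    exact around_of (hx h0)

end Pool.Agent.Results.MP_e9eb55_nt.MetricSequencesH24
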