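import Pool.Agent.V7H24.TR.Poly
import Pool.Agent.Results.MP_e9eb55_nt.AlmostAllN

/-!
# The diagonal Moebius-twisted Elliott-Halberstam bound around all the divisors of polynomial values at almost all integers

Let `f` be an integral polynomial without multiple complex roots, for instance `X ^ 2 + 1`, `X ^ k - 1` or
`X (X + 1) ⋯ (X + k)`. For all `m ≤ N` but `N / (log N) ^ U` (every `U`), for all integers `l` with `|l - m| ≤ (log N) ^ A` and for
ALL divisors `d` of `f (l)` with `exp ((log N) ^ ε) ≤ d ≤ N (log N) ^ C` the diagonal bound holds for both weights at ALL integers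
`n` within distance `(1 + log d) ^ W` of `d`. As `U` is arbitrary this applies to almost all members `m` of every set which
has at least `N / (log N) ^ C'` members up to `N`, for instance to the divisors of `f (p)` for almost all primes `p`.

The starting theorem `AlmostAllN` of this problem gives an exceptional set `E` with a saving of every power of the logarithm. Proof:
the number of the roots of `f` modulo `d` is at most `C_f (1 + deg f) ^ ω(d)`; sum over the `d` near `E`, with a second moment to
remove the weight. For polynomials with a multiple root this argument breaks down: the divisors `s ^ 2` of `l ^ 2`, `s` a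
divisor of `l`, form a set with a saving of every power of the logarithm.
-/

set_option autoImplicit false

namespace Pool.Agent.Results.MP_e9eb55_nt.PolynomialDivisorsH24

open Pool.Agent.Results.MP_e9eb55_nt.AlmostAllN (disc g₁ g₂)
open Polynomial

/-- the diagonal bound at `n` for the moduli up to `Q` and the saving `(log n) ^ B`, for both weights -/
def Bound (B : ℝ) (n : ℕ) (Q : ℝ) : Prop :=
  ∀ g : ℕ → ℝ, (g = g₁ ∨ g = g₂) → disc g n Q ≤ n * Real.log n ^ (-B)

/-- For all `m ≤ N` but `N / (log N) ^ U`, for all `l` with `|l - m| ≤ (log N) ^ A` and all divisors `d` of `f (l)` with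
`exp ((log N) ^ ε) ≤ d ≤ N (log N) ^ C` ALL integers `n` with `|n - d| ≤ (1 + log d) ^ W` have the property `P`; for all `ε > 0`
and all `A`, `C`, `W`, `U` and all large `N`. -/
def AroundDivisorsOf (f : ℤ[X]) (P : ℕ → Prop) : Prop :=
  ∀ ε : ℝ, 0 < ε → ∀ A C W U : ℕ, ∃ N₀ : ℕ, ∀ N : ℕ, N₀ ≤ N →
    ({m : ℕ | 1 ≤ m ∧ m ≤ N ∧ ∃ l : ℕ, 1 ≤ l ∧ |(l : ℝ) - m| ≤ Real.log N ^ A ∧ ∃ d : ℕ, (d : ℤ) ∣ f.eval (l : ℤ) ∧
      Real.exp (Real.log N ^ ε) ≤ d ∧ (d : ℝ) ≤ N * Real.log N ^ C ∧
      ∃ n : ℕ, |(n : ℝ) - d| ≤ (1 + Real.log d) ^ W ∧ ¬ P n}.ncard : ℝ) ≤ N / Real.log N ^ U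

/-- **Theorem.** Let `f` be an integral polynomial which is separable over the rationals and `B > 0`. Around all the divisors of
the values of `f` at almost all integers in the sense of `AroundDivisorsOf` one has `D_g(n; θ) ≤ n (log n) ^ (-B)` for both
weights, for every `0 < θ < 1`, and the same for the moduli up to `n exp (-(log n) ^ c)` for every `c > 0`. Examples: the polynomials
`X ^ k - a`, `k ≥ 1`, `a ≠ 0`, and the products of different polynomials `X + c`. -/
theorem result :
    (∀ f : ℤ[X], (f.map (Int.castRingHom ℚ)).Separable → ∀ B : ℝ, 0 < B →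
      (∀ θ : ℝ, 0 < θ → θ < 1 → AroundDivisorsOf f (fun n => Bound B n ((n : ℝ) ^ θ))) ∧
      (∀ c : ℝ, 0 < c → AroundDivisorsOf f (fun n => Bound B n (n * Real.exp (-(Real.log n) ^ c))))) ∧
    (∀ (k : ℕ) (a : ℤ), 1 ≤ k → a ≠ 0 → ((X ^ k - C a : ℤ[X]).map (Int.castRingHom ℚ)).Separable) ∧
    (∀ S : Finset ℤ, ((∏ c ∈ S, (X + C c) : ℤ[X]).map (Int.castRingHom ℚ)).Separable) := by
  refine ⟨fun f hf B hB => ?_, fun k a hk ha => ?_, fun S => ?_⟩
  · obtain ⟨E, h1, h2, h3⟩ := AlmostAllN.result
    have hE : Pool.Agent.N375.AV.LogThin E := Pool.Agent.N375.AV.logThin_of (fun B => by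
      obtain ⟨X₀, hX₀⟩ := h1 B
      refine ⟨X₀, fun X hX => le_trans (le_of_eq ?_) (hX₀ X hX)⟩
      congr!)
    refine ⟨fun θ h0 hθ ε hε A C W U => ?_, fun c hc ε hε A C W U => ?_⟩
    · obtain ⟨n₀, hn₀⟩ := h2 θ h0 hθ B hB
      exact Pool.Agent.V7H24.TR.poly_good hE (fun n => Bound B n ((n : ℝ) ^ θ))
        ⟨n₀, fun n hn hnE g hg => hn₀ n hn hnE g hg⟩ hf ε hε A C W U
    · obtain ⟨n₀, hn₀⟩ := h3 c hc B hB
      exact Pool.Agent.V7H24.TR.poly_good hE (fun n => Bound B n (n * Real.exp (-(Real.log n) ^ c)))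
        ⟨n₀, fun n hn hnE g hg => hn₀ n hn hnE g hg⟩ hf ε hε A C W U
  · rw [Polynomial.map_sub, Polynomial.map_pow, Polynomial.map_X, Polynomial.map_C]
    apply Polynomial.separable_X_pow_sub_C
    · have : k ≠ 0 := by omega
      exact_mod_cast this
    · simpa using ha
  · rw [Polynomial.map_prod]
    apply Polynomial.separable_prod'
    · intro i _ j _ hij
      rw [Polynomial.map_add, Polynomial.map_add, Polynomial.map_X, Polynomial.map_C, Polynomial.map_C]
      have h1 : (X + C ((Int.castRingHom ℚ) i) : ℚ[X]) = X - C (-((Int.castRingHom ℚ) i)) := by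
        rw [map_neg, sub_neg_eq_add]
      have h2 : (X + C ((Int.castRingHom ℚ) j) : ℚ[X]) = X - C (-((Int.castRingHom ℚ) j)) := by
        rw [map_neg, sub_neg_eq_add]
      rw [h1, h2]
      apply Polynomial.isCoprime_X_sub_C_of_isUnit_sub
      rw [isUnit_iff_ne_zero]
      simp only [eq_intCast]
      have : (i : ℚ) ≠ j := by exact_mod_cast hij
      intro h
      apply this
      linarith
    · intro i _
      rw [Polynomial.map_add, Polynomial.map_X, Polynomial.map_C]
      exact Polynomial.separable_X_add_C _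

end Pool.Agent.Results.MP_e9eb55_nt.PolynomialDivisorsH24
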