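import Pool.Agent.V7H49.DQ7
import Pool.Agent.V7H49.DQ9
import Pool.Agent.Results.MP_e9eb55_nt.AlmostAllN

/-!
# The diagonal Moebius-twisted Elliott-Halberstam bound for almost all members of thin families

The starting theorem `AlmostAllN` of this problem gives dEH for all `N ≤ X` but `X / (log X)^B`, so it says nothing about
sets with `X^(1 - c)` elements, like the squares or the numbers `n^2 + m^4`. Here dEH is proved for almost all members of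
thin families, at levels given by the size of the family:

* (1) a criterion: if `I` is a finite family of integers `φ(i) ≤ X` for which the differences `φ(i) - φ(i')` coincide about as
  often as for a random family (up to powers of `log X`, on average over the divisors of the difference), then dEH at level
  `Q ≤ |I| / (log X)^C'` holds for all but `|I| / (log X)^B` members;
* (2) for any set `M` of integers with at least `x^(2 δ)` elements of size `O(x^2)`, dEH holds at all levels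
  `N^θ`, `θ < 1/2 + δ`, for almost all `N = a n^2 + b n + m`, `x < n ≤ 2 x`, `m ∈ M`;
* (3) so for almost all `N = a n^2 + b n + m^k`, `n ≤ 2 x`, `m^k ≤ x^2`, at all levels `θ < min (1, 1/2 + 1/k)`: for instance
  at all levels `θ < 3/4` for almost all `N = n^2 + m^4` and at all levels `θ < 1` for almost all `N = n^2 + m^2`;
* (4) for almost all `n`, at the level `√N / (log N)^C`, for ALL `N` within `(log x)^W` of `a n^2 + b n + c`, uniformly in `c`;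
* (5) for one polynomial there is one exceptional set of `n`, with a saving of every power of the logarithm, off which dEH holds
  at all levels `θ < 1/2` around `a n^2 + b n + c` (for example for almost all squares, and for almost all squares of primes).

Proof. By Cauchy's inequality (in the variable of the primes) the mean of `|∑ Λ(n) g(N - n)|` over the family is bounded by the
autocorrelation of the sequence `g(m)`, `q ∣ m`, at the differences of the family; the `ℓ²` norm of the autocorrelation is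
small by Davenport's bound for the exponential sums over the Moebius function on multiples of `q`, and the differences
`(n - n') (a (n + n') + b)` are counted with the divisor function, on average over `q`.
-/

set_option autoImplicit false

namespace Pool.Agent.Results.MP_e9eb55_nt.ThinFamiliesH49

open Finset
open Pool.Agent.Results.MP_e9eb55_nt.AlmostAllN (disc g₁ g₂)

/-- the number of the quadruples `(i₁, i₂, i₃, i₄)` of indices with `φ(i₁) - φ(i₂) = φ(i₃) - φ(i₄)`, not zero and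
divisible by `q` -/
def energy {ι : Type} (I : Finset ι) (φ : ι → ℕ) (q : ℕ) : ℕ :=
  (((I ×ˢ I) ×ˢ (I ×ˢ I)).filter (fun p => φ p.1.1 ≠ φ p.1.2 ∧ φ p.1.1 ≡ φ p.1.2 [MOD q] ∧
    φ p.1.1 + φ p.2.2 = φ p.1.2 + φ p.2.1)).card

/-- the number of the pairs of indices with `φ(i₁) = φ(i₂)` -/
def coin {ι : Type} (I : Finset ι) (φ : ι → ℕ) : ℕ := ((I ×ˢ I).filter (fun p => φ p.1 = φ p.2)).card

open Classical in
/-- **dEH for almost all members of thin families.** See the header for (1)-(5). -/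
theorem result :
    (∀ c : ℝ, 0 < c → c ≤ 1 → ∀ A B C : ℕ, ∃ C' X₀ : ℕ, ∀ X : ℕ, X₀ ≤ X →
      ∀ Q : ℕ, (Q : ℝ) ≤ X * Real.exp (-(Real.log X) ^ c) → ∀ (ι : Type) (I : Finset ι) (φ : ι → ℕ),
      (∀ i ∈ I, φ i ∈ Icc 1 X) → (Q : ℝ) * Real.log X ^ C' * coin I φ ≤ (I.card : ℝ) ^ 2 →
      (∑ q ∈ Icc 1 Q, (energy I φ q : ℝ)) ≤ Real.log X ^ C * (I.card : ℝ) ^ 4 / X →
      ∀ g : ℕ → ℝ, (g = g₁ ∨ g = g₂) →
      ((I.filter (fun i => (X : ℝ) / Real.log X ^ A < disc g (φ i) Q)).card : ℝ) ≤ I.card / Real.log X ^ B) ∧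
    (∀ a b K A B : ℕ, 1 ≤ a → ∀ δ θ : ℝ, 0 < δ → δ < 1 / 2 → 0 < θ → θ < 1 / 2 + δ → ∃ x₀ : ℕ, ∀ x : ℕ, x₀ ≤ x →
      ∀ M : Finset ℤ, (∀ m ∈ M, -(x : ℤ) ^ 2 ≤ 2 * m ∧ m ≤ K * (x : ℤ) ^ 2) → (x : ℝ) ^ (2 * δ) ≤ M.card →
      (((Ioc x (2 * x) ×ˢ M).filter (fun i : ℕ × ℤ => ∃ N : ℕ, (N : ℤ) = a * (i.1 : ℤ) ^ 2 + b * i.1 + i.2 ∧
        ∃ g : ℕ → ℝ, (g = g₁ ∨ g = g₂) ∧ (N : ℝ) / Real.log N ^ A < disc g N ((N : ℝ) ^ θ))).card : ℝ) ≤
        x * M.card / Real.log x ^ B) ∧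
    (∀ a b k A B : ℕ, 1 ≤ a → 1 ≤ k → ∀ θ : ℝ, 0 < θ → θ < 1 → θ < 1 / 2 + 1 / k → ∃ x₀ : ℕ, ∀ x : ℕ, x₀ ≤ x →
      (((Ioc x (2 * x) ×ˢ Icc 1 ⌊(x : ℝ) ^ (2 / (k : ℝ))⌋₊).filter (fun p : ℕ × ℕ =>
        ∃ g : ℕ → ℝ, (g = g₁ ∨ g = g₂) ∧
          ((a * p.1 ^ 2 + b * p.1 + p.2 ^ k : ℕ) : ℝ) / Real.log (a * p.1 ^ 2 + b * p.1 + p.2 ^ k : ℕ) ^ A <
            disc g (a * p.1 ^ 2 + b * p.1 + p.2 ^ k) (((a * p.1 ^ 2 + b * p.1 + p.2 ^ k : ℕ) : ℝ) ^ θ))).card : ℝ) ≤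
        x * ⌊(x : ℝ) ^ (2 / (k : ℝ))⌋₊ / Real.log x ^ B) ∧
    (∀ a b K A B W : ℕ, 1 ≤ a → ∃ C x₀ : ℕ, ∀ x : ℕ, x₀ ≤ x → ∀ c : ℤ,
      -(x : ℤ) ^ 2 ≤ 2 * c → c ≤ K * (x : ℤ) ^ 2 →
      (((Ioc x (2 * x)).filter (fun n : ℕ => ∃ N : ℕ,
        |(N : ℝ) - (a * (n : ℝ) ^ 2 + b * n + c)| ≤ Real.log x ^ W ∧ ∃ g : ℕ → ℝ, (g = g₁ ∨ g = g₂) ∧
          (N : ℝ) / Real.log N ^ A < disc g N (Real.sqrt N / Real.log N ^ C))).card : ℝ) ≤ x / Real.log x ^ B) ∧
    (∀ (a b : ℕ) (c : ℤ), 1 ≤ a → ∃ E : Set ℕ,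
      (∀ B : ℝ, ∃ X₀ : ℕ, ∀ X : ℕ, X₀ ≤ X →
        (((Icc 1 X).filter (fun n => n ∈ E)).card : ℝ) ≤ X / Real.log X ^ B) ∧
      ∀ θ : ℝ, 0 < θ → θ < 1 / 2 → ∀ A : ℝ, 0 < A → ∀ W : ℕ, ∃ n₀ : ℕ, ∀ n : ℕ, n₀ ≤ n → n ∉ E → ∀ N : ℕ,
        |(N : ℝ) - (a * (n : ℝ) ^ 2 + b * n + c)| ≤ Real.log n ^ W → ∀ g : ℕ → ℝ, (g = g₁ ∨ g = g₂) →
          disc g N ((N : ℝ) ^ θ) ≤ N * Real.log N ^ (-A)) := by
  refine ⟨?_, ?_, ?_, ?_, ?_⟩
  · intro c hc hc1 A B C
    obtain ⟨C', X0, h⟩ := Pool.Agent.V7H49.DQ.criterion c hc hc1 A B C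
    refine ⟨C', X0, fun X hX Q hQ ι I φ hI h1 h2 g hg => ?_⟩
    refine le_trans (le_of_eq ?_) (h X hX Q hQ ι I φ hI h1 h2 g hg)
    congr!
  · intro a b K A B ha δ θ h1 h2 h3 h4
    exact Pool.Agent.V7H49.DQ.pairs a b K A B ha δ θ h1 h2 h3 h4
  · intro a b k A B ha hk θ h1 h2 h3
    exact Pool.Agent.V7H49.DQ.powers a b k A B ha hk θ h1 h2 h3
  · intro a b K A B W ha
    obtain ⟨C, x0, h⟩ := Pool.Agent.V7H49.DQ.windows a b K A B W ha
    exact ⟨C, x0, fun x hx c hc1 hc2 => h x hx c hc1 hc2⟩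
  · intro a b c ha
    exact Pool.Agent.V7H49.DQ.single a b c ha

end Pool.Agent.Results.MP_e9eb55_nt.ThinFamiliesH49
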